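import Mathlib

/-!
# Planar cores for project RN, section 8

`core82`: a symmetric weight that is not multiplicative forces a conic; `core83`: two multiplicative
weights force a conic.
-/

namespace Pool.Agent.Helper73.RN

variable {K : Type*} [Field K] {ι : Type*}

theorem core82 {X : Finset ι} {x y t wb : ι → K} {w : ι → ι → K} {om : K} (hom : om ≠ 0)
    (hwb : ∀ e ∈ X, wb e ≠ 0) (hx : Set.InjOn x X) (hy : Set.InjOn y X) (ht : Set.InjOn t X)
    (hsym : ∀ c ∈ X, ∀ e ∈ X, w c e = w e c)
    (h1 : ∀ c ∈ X, ∃ β : K, ∀ e ∈ X, w c e * (y e - y c) =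
      wb e * (β * (t e - t c) + t c * wb c / om * (y e - y c)))
    (h2 : ∀ c ∈ X, ∃ β : K, ∀ e ∈ X, w c e * (x e - x c) =
      wb e * (β * (t e - t c) + wb c / om * (x e * t e - x c * t c))) :
    ∃ a0 b0 C : K, ∀ e ∈ X, (x e - a0) * (b0 - y e) = C := by
  classical
  choose! β hβ using h1
  choose! β' hβ' using h2
  -- B_c, B'_c
  set B : ι → K := fun c => om * β c / wb c with hB
  set B' : ι → K := fun c => om * β' c / wb c + x c with hB'
  have e1 : ∀ c ∈ X, ∀ e ∈ X, e ≠ c → om * w c e / (wb c * wb e) * (y e - y c) =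
      t c * (y e - y c) + B c * (t e - t c) := by
    intro c hc e he _
    have h := hβ c hc e he
    have hwc := hwb c hc
    have hwe := hwb e he
    rw [hB]
    field_simp
    field_simp at h
    linear_combination h
  have e2 : ∀ c ∈ X, ∀ e ∈ X, e ≠ c → om * w c e / (wb c * wb e) * (x e - x c) =
      t e * (x e - x c) + B' c * (t e - t c) := by
    intro c hc e he _
    have h := hβ' c hc e he
    have hwc := hwb c hc
    have hwe := hwb e he
    rw [hB']
    field_simp
    field_simp at h
    linear_combination h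
  have s1 : ∀ c ∈ X, ∀ e ∈ X, B c + y c = B e + y e := by
    intro c hc e he
    by_cases hce : e = c
    · rw [hce]
    have ht' : t e - t c ≠ 0 := sub_ne_zero.2 fun h => hce (ht he hc h)
    have a1 := e1 c hc e he hce
    have a2 := e1 e he c hc (Ne.symm hce)
    rw [hsym e he c hc, mul_comm (wb e) (wb c)] at a2
    apply mul_left_cancel₀ ht'
    linear_combination -a1 - a2
  have s2 : ∀ c ∈ X, ∀ e ∈ X, x c - B' c = x e - B' e := by
    intro c hc e he
    by_cases hce : e = c
    · rw [hce]
    have ht' : t e - t c ≠ 0 := sub_ne_zero.2 fun h => hce (ht he hc h)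
    have a1 := e2 c hc e he hce
    have a2 := e2 e he c hc (Ne.symm hce)
    rw [hsym e he c hc, mul_comm (wb e) (wb c)] at a2
    apply mul_left_cancel₀ ht'
    linear_combination a1 + a2
  rcases X.eq_empty_or_nonempty with rfl | ⟨c, hc⟩
  · exact ⟨0, 0, 0, by simp⟩
  refine ⟨x c - B' c, B c + y c, (x c - (x c - B' c)) * ((B c + y c) - y c), fun e he => ?_⟩
  by_cases hce : e = c
  · rw [hce]
  have ht' : t e - t c ≠ 0 := sub_ne_zero.2 fun h => hce (ht he hc h)
  have a1 := e1 c hc e he hce
  have a2 := e2 c hc e he hce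
  have a3 : (t e - t c) * ((y e - y c) * (x e - x c) + B' c * (y e - y c) - B c * (x e - x c)) = 0 := by
    linear_combination (x e - x c) * a1 - (y e - y c) * a2
  have a4 := (mul_eq_zero.1 a3).resolve_left ht'
  linear_combination -a4

theorem core83 {X : Finset ι} {x y F : ι → K} {C : K}
    (hF : ∀ e ∈ X, F e ≠ 0) (hx : Set.InjOn x X)
    (h : ∀ i ∈ X, ∀ j ∈ X, y i - y j = C * F i * F j * (x i - x j)) :
    (∃ a0 b0 C' : K, ∀ e ∈ X, (x e - a0) * (b0 - y e) = C') ∨
      ∃ m n : K, ∀ e ∈ X, y e = m * x e + n := by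
  classical
  by_cases hC : C = 0
  · right
    rcases X.eq_empty_or_nonempty with rfl | ⟨c, hc⟩
    · exact ⟨0, 0, by simp⟩
    refine ⟨0, y c, fun e he => ?_⟩
    have := h e he c hc
    rw [hC] at this
    linear_combination this
  rcases X.eq_empty_or_nonempty with rfl | ⟨i, hi⟩
  · exact Or.inr ⟨0, 0, by simp⟩
  by_cases hX : ∀ e ∈ X, F e = F i
  · right
    refine ⟨C * F i * F i, y i - C * F i * F i * x i, fun e he => ?_⟩
    have h1 := h e he i hi
    rw [hX e he] at h1
    linear_combination h1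
  · left
    push Not at hX
    obtain ⟨j, hj, hij⟩ := hX
    have hne : x j ≠ x i := fun h => hij (by rw [hx hj hi h])
    have hne' : x j - x i ≠ 0 := sub_ne_zero.2 hne
    -- 1 / F = α + β x
    set β : K := ((F j)⁻¹ - (F i)⁻¹) / (x j - x i) with hβ
    set α : K := (F i)⁻¹ - β * x i with hα
    have hβ0 : β ≠ 0 := by
      rw [hβ]
      refine div_ne_zero (sub_ne_zero.2 fun h => hij (inv_injective h)) hne'
    have hlin : ∀ e ∈ X, (F e)⁻¹ = α + β * x e := by
      intro e he
      have h1 := h e he i hi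
      have h2 := h i hi j hj
      have h3 := h j hj e he
      have hFe := hF e he
      have hFi := hF i hi
      have hFj := hF j hj
      have h4 : F e * F i * (x e - x i) + F i * F j * (x i - x j) + F j * F e * (x j - x e) = 0 := by
        apply (mul_eq_zero.1 (?_ : C * _ = 0)).resolve_left hC
        linear_combination -h1 - h2 - h3
      have h5 : (x e - x i) * (F j)⁻¹ + (x i - x j) * (F e)⁻¹ + (x j - x e) * (F i)⁻¹ = 0 := by
        field_simp
        linear_combination h4
      have h6 : β * (x j - x i) = (F j)⁻¹ - (F i)⁻¹ := by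
        rw [hβ]; field_simp
      apply mul_left_cancel₀ hne'
      rw [hα]
      linear_combination -h5 - (x e - x i) * h6
    refine ⟨-(α / β), y i + C / β * (α + β * x i)⁻¹, C / β ^ 2, fun e he => ?_⟩
    have h1 := h e he i hi
    have he1 := hlin e he
    have hi1 := hlin i hi
    have hFe := hF e he
    have hFi := hF i hi
    have n1 : α + β * x e ≠ 0 := by rw [← he1]; exact inv_ne_zero hFe
    have n2 : α + β * x i ≠ 0 := by rw [← hi1]; exact inv_ne_zero hFi
    have f1 : F e = (α + β * x e)⁻¹ := by rw [← he1, inv_inv]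
    have f2 : F i = (α + β * x i)⁻¹ := by rw [← hi1, inv_inv]
    rw [f1, f2] at h1
    obtain ⟨P, hP⟩ : ∃ P, P = α + β * x e := ⟨_, rfl⟩
    obtain ⟨Q, hQ⟩ : ∃ Q, Q = α + β * x i := ⟨_, rfl⟩
    rw [← hP] at n1 h1
    rw [← hQ] at n2 h1
    have h3 : x e - x i = (P - Q) / β := by rw [hP, hQ]; field_simp; ring
    have h4 : x e - -(α / β) = P / β := by rw [hP]; field_simp; ring
    have h2 : y i - y e = - (C * P⁻¹ * Q⁻¹ * ((P - Q) / β)) := by
      rw [← h3]; linear_combination -h1
    have h5 : y i + C / β * Q⁻¹ - y e = C / β * P⁻¹ := by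
      rw [show y i + C / β * Q⁻¹ - y e = (y i - y e) + C / β * Q⁻¹ by ring, h2]
      field_simp
      ring
    rw [← hQ, h4, h5]
    field_simp

end Pool.Agent.Helper73.RN
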